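import Mathlib

/-!
The set-splitting game `G(E)`.

A partition of a set `S` into two disjoint parts is given by a set `P`: its parts are `S ∩ P` and
`S \ P`.  A run of the game is given by sequences `P : ℕ → Set E` and `c : ℕ → Bool`; at stage `n`
the current set `S_n` is split into `S_n ∩ P n` and `S_n \ P n`, and `S_{n+1}` is the first part if
`c n = true` and the second part if `c n = false`.  At even stages player A supplies `P n` and
player B supplies `c n`; at odd stages B supplies `P n` and A supplies `c n`.
-/

namespace Pool.Agent.Results.MP_053b7f_lc.NoWin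

universe u

/-- The part of the partition `{S ∩ P, S \ P}` of `S` selected by the Boolean `b`. -/
def part {E : Type u} (S P : Set E) (b : Bool) : Set E := if b = true then S ∩ P else S \ P

/-- The current set `S_n` of a run: `S_0 = E`, and `S_{n+1}` is the selected part of `S_n`. -/
def pos {E : Type u} (P : ℕ → Set E) (c : ℕ → Bool) : ℕ → Set E
  | 0 => Set.univ
  | n + 1 => part (pos P c n) (P n) (c n)

/-- The history of a run before stage `n`: the list of the moves `(P i, c i)`, `i < n`. -/
def hist {E : Type u} (P : ℕ → Set E) (c : ℕ → Bool) (n : ℕ) : List (Set E × Bool) :=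
  (List.range n).map fun i => (P i, c i)

/-- A strategy for player A: from the history it produces A's way of splitting the current set
(used at even stages), and from the history and B's splitting it produces A's choice of a part
(used at odd stages). -/
structure StrategyA (E : Type u) where
  split : List (Set E × Bool) → Set E
  choose : List (Set E × Bool) → Set E → Bool

/-- The run `(P, c)` is one in which A follows the strategy `σ`. -/
def Follows {E : Type u} (σ : StrategyA E) (P : ℕ → Set E) (c : ℕ → Bool) : Prop :=
  (∀ n, Even n → P n = σ.split (hist P c n)) ∧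
  (∀ n, Odd n → c n = σ.choose (hist P c n) (P n))

/-- `σ` is a winning strategy for A: every run in which A follows `σ` has empty intersection. -/
def Winning {E : Type u} (σ : StrategyA E) : Prop :=
  ∀ (P : ℕ → Set E) (c : ℕ → Bool), Follows σ P c → (⋂ n, pos P c n) = ∅

section proof

variable {E : Type u} (σ : StrategyA E) (B : ℕ → Set E)

open Classical in
/-- The history and the current set produced by a finite (reversed) list of decisions of B: at an
even stage the decision `a` means that B takes the first part iff `a = 0`; at an odd stage it means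
that B splits the current set by `B a`. -/
noncomputable def H : List ℕ → List (Set E × Bool) × Set E
  | [] => ([], Set.univ)
  | a :: d =>
      ((H d).1 ++ [(if Even d.length then σ.split (H d).1 else B a,
          if Even d.length then decide (a = 0) else σ.choose (H d).1 (B a))],
        part (H d).2 (if Even d.length then σ.split (H d).1 else B a)
          (if Even d.length then decide (a = 0) else σ.choose (H d).1 (B a)))

/-- The decision list of length `n` obtained from a rule `g`. -/
def dec (g : List ℕ → ℕ) : ℕ → List ℕ
  | 0 => []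
  | n + 1 => g (dec g n) :: dec g n

theorem dec_length (g : List ℕ → ℕ) (n : ℕ) : (dec g n).length = n := by
  induction n with
  | zero => rfl
  | succ n ih => simp [dec, ih]

/-- `a` is an admissible decision after `d` that keeps the point `x` alive. -/
def Good (x : E) (d : List ℕ) (a : ℕ) : Prop :=
  x ∈ (H σ B (a :: d)).2 ∧
    (Odd d.length → ((H σ B d).2 ∩ B a).Nonempty ∧ ((H σ B d).2 \ B a).Nonempty)

/-- Main combinatorial step. -/
theorem main_step {T : Type} [Uncountable T] (i : T → E) (j : T → ℕ → Bool)
    (hi : Function.Injective i) (hj : Function.Injective j) :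
    ∃ t : T, ∀ d : List ℕ, i t ∈ (H σ (fun m => {y | ∃ t, i t = y ∧ j t m = true}) d).2 →
      (¬ ((H σ (fun m => {y | ∃ t, i t = y ∧ j t m = true}) d).2).Countable) ∧
      ∃ a, Good σ (fun m => {y | ∃ t, i t = y ∧ j t m = true}) (i t) d a := by
  set B : ℕ → Set E := fun m => {y | ∃ t, i t = y ∧ j t m = true} with hB
  have hmem : ∀ t m, i t ∈ B m ↔ j t m = true := by
    intro t m
    constructor
    · rintro ⟨t', ht', h⟩
      rw [← hi ht']; exact h
    · intro h; exact ⟨t, rfl, h⟩
  let bad1 : List ℕ → Set T := fun d =>
    {t | i t ∈ (H σ B d).2 ∧ ((H σ B d).2).Countable}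
  let bad2 : List ℕ → Set T := fun d =>
    {t | i t ∈ (H σ B d).2 ∧ ∀ a, ¬ Good σ B (i t) d a}
  have h1 : ∀ d, (bad1 d).Countable := by
    intro d
    by_cases hc : ((H σ B d).2).Countable
    · exact (hc.preimage hi).mono (fun t ht => ht.1)
    · have : bad1 d = ∅ := by
        ext t; simp only [Set.mem_empty_iff_false, iff_false]
        intro ht; exact hc ht.2
      rw [this]; exact Set.countable_empty
  have h2 : ∀ d, (bad2 d).Countable := by
    intro d
    apply Set.Subsingleton.countable
    intro t ht t' ht'
    by_contra hne
    rcases Nat.even_or_odd d.length with he | ho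
    · -- B chooses a part: always possible
      by_cases hm : i t ∈ σ.split (H σ B d).1
      · apply ht.2 0
        refine ⟨?_, fun ho => absurd he (Nat.not_even_iff_odd.mpr ho)⟩
        simp only [H, if_pos he, part, decide_true, if_true]
        exact ⟨ht.1, hm⟩
      · apply ht.2 1
        refine ⟨?_, fun ho => absurd he (Nat.not_even_iff_odd.mpr ho)⟩
        simp only [H, if_pos he, part]
        simp only [one_ne_zero, decide_false, Bool.false_eq_true, if_false]
        exact ⟨ht.1, hm⟩
    · have hne' : ¬ Even d.length := Nat.not_even_iff_odd.mpr ho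
      have : j t ≠ j t' := fun h => hne (hj h)
      obtain ⟨m, hm⟩ := Function.ne_iff.mp this
      have hmeet : ((H σ B d).2 ∩ B m).Nonempty ∧ ((H σ B d).2 \ B m).Nonempty := by
        cases htm : j t m with
        | true =>
          have ht'm : j t' m = false := by
            cases h : j t' m with
            | true => rw [htm, h] at hm; exact absurd rfl hm
            | false => rfl
          refine ⟨⟨i t, ht.1, (hmem t m).2 htm⟩, ⟨i t', ht'.1, ?_⟩⟩
          rw [hmem, ht'm]; simp
        | false =>
          have ht'm : j t' m = true := by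
            cases h : j t' m with
            | true => rfl
            | false => rw [htm, h] at hm; exact absurd rfl hm
          refine ⟨⟨i t', ht'.1, (hmem t' m).2 ht'm⟩, ⟨i t, ht.1, ?_⟩⟩
          rw [hmem, htm]; simp
      have key : ∀ s : T, s ∈ bad2 d → i s ∉ (H σ B (m :: d)).2 := by
        intro s hs hin
        exact hs.2 m ⟨hin, fun _ => hmeet⟩
      have k1 := key t ht
      have k2 := key t' ht'
      simp only [H, if_neg hne', part] at k1 k2
      cases hch : σ.choose (H σ B d).1 (B m) with
      | true =>
        simp only [hch, if_true] at k1 k2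
        have e1 : j t m = false := by
          by_contra h
          apply k1; refine ⟨ht.1, (hmem t m).2 ?_⟩
          simpa using h
        have e2 : j t' m = false := by
          by_contra h
          apply k2; refine ⟨ht'.1, (hmem t' m).2 ?_⟩
          simpa using h
        exact hm (by rw [e1, e2])
      | false =>
        simp only [hch, Bool.false_eq_true, if_false] at k1 k2
        have e1 : j t m = true := by
          by_contra h
          apply k1; refine ⟨ht.1, fun h' => h ((hmem t m).1 h')⟩
        have e2 : j t' m = true := by
          by_contra h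
          apply k2; refine ⟨ht'.1, fun h' => h ((hmem t' m).1 h')⟩
        exact hm (by rw [e1, e2])
  have hD : (⋃ d : List ℕ, (bad1 d ∪ bad2 d)).Countable :=
    Set.countable_iUnion fun d => (h1 d).union (h2 d)
  have : ∃ t : T, t ∉ ⋃ d : List ℕ, (bad1 d ∪ bad2 d) := by
    by_contra hcon
    push Not at hcon
    have : (Set.univ : Set T).Countable := hD.mono (fun t _ => hcon t)
    exact Set.not_countable_univ this
  obtain ⟨t, ht⟩ := this
  refine ⟨t, fun d hd => ⟨fun hc => ht ?_, ?_⟩⟩
  · exact Set.mem_iUnion.2 ⟨d, Or.inl ⟨hd, hc⟩⟩
  · by_contra hcon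
    push Not at hcon
    exact ht (Set.mem_iUnion.2 ⟨d, Or.inr ⟨hd, hcon⟩⟩)

end proof

theorem exists_maps (E : Type u) [Uncountable E] :
    ∃ (T : Type) (_ : Uncountable T) (i : T → E) (j : T → ℕ → Bool),
      Function.Injective i ∧ Function.Injective j := by
  classical
  let T : Type := (Cardinal.aleph 1).out
  have hT : Cardinal.mk T = Cardinal.aleph 1 := Cardinal.mk_out _
  have hE : Cardinal.lift.{u} (Cardinal.mk T) ≤ Cardinal.lift.{0} (Cardinal.mk E) := by
    rw [hT]
    have h1 : Cardinal.lift.{u} (Cardinal.aleph 1 : Cardinal.{0}) = Cardinal.aleph 1 := by simp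
    have h2 : Cardinal.lift.{0} (Cardinal.mk E) = Cardinal.mk E := Cardinal.lift_uzero _
    rw [h1, h2]
    exact Cardinal.aleph_one_le_iff.2 (Cardinal.aleph0_lt_mk_iff.2 inferInstance)
  have hC : Cardinal.mk T ≤ Cardinal.mk (ℕ → Bool) := by
    rw [hT]
    rw [show Cardinal.mk (ℕ → Bool) = Cardinal.continuum by simp]
    exact Cardinal.aleph_one_le_continuum
  obtain ⟨i⟩ := Cardinal.lift_mk_le'.1 hE
  obtain ⟨j⟩ := hC
  refine ⟨T, ?_, i, j, i.injective, j.injective⟩
  rw [← Cardinal.aleph0_lt_mk_iff, hT]
  exact Cardinal.aleph0_lt_aleph_one

theorem exists_play {E : Type u} [Uncountable E] (σ : StrategyA E) :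
    ∃ (P : ℕ → Set E) (c : ℕ → Bool), Follows σ P c ∧ (⋂ n, pos P c n).Nonempty ∧
      (∀ n, ¬ (pos P c n).Countable) ∧
      (∀ n, Odd n → (pos P c n ∩ P n).Nonempty ∧ (pos P c n \ P n).Nonempty) := by
  classical
  obtain ⟨T, _, i, j, hi, hj⟩ := exists_maps E
  obtain ⟨t, ht⟩ := main_step σ i j hi hj
  set B : ℕ → Set E := fun m => {y | ∃ t, i t = y ∧ j t m = true} with hB
  let g : List ℕ → ℕ := fun d => if h : ∃ a, Good σ B (i t) d a then h.choose else 0
  have hg : ∀ d, (∃ a, Good σ B (i t) d a) → Good σ B (i t) d (g d) := by
    intro d h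
    simp only [g, dif_pos h]
    exact h.choose_spec
  have halive : ∀ n, i t ∈ (H σ B (dec g n)).2 := by
    intro n
    induction n with
    | zero => simp [dec, H]
    | succ n ih => exact (hg _ (ht _ ih).2).1
  let P : ℕ → Set E := fun n =>
    if Even n then σ.split (H σ B (dec g n)).1 else B (g (dec g n))
  let c : ℕ → Bool := fun n =>
    if Even n then decide (g (dec g n) = 0) else σ.choose (H σ B (dec g n)).1 (B (g (dec g n)))
  have hH : ∀ n, (H σ B (dec g n)) = (hist P c n, pos P c n) := by
    intro n
    induction n with
    | zero => simp [dec, H, hist, pos]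
    | succ n ih =>
      have e1 : hist P c (n+1) = hist P c n ++ [(P n, c n)] := by
        simp [hist, List.range_succ]
      have e2 : pos P c (n+1) = part (pos P c n) (P n) (c n) := rfl
      rw [e1, e2]
      have e3 : H σ B (dec g n) = (hist P c n, pos P c n) := ih
      simp only [dec, H, dec_length]
      simp only [P, c, e3]
  refine ⟨P, c, ⟨?_, ?_⟩, ⟨i t, ?_⟩, ?_, ?_⟩
  · intro n hn
    have h := congrArg Prod.fst (hH n)
    have h' : P n = σ.split (H σ B (dec g n)).1 := if_pos hn
    rw [h', h]
  · intro n hn
    have hn' : ¬ Even n := Nat.not_even_iff_odd.mpr hn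
    have h := congrArg Prod.fst (hH n)
    have h1 : P n = B (g (dec g n)) := if_neg hn'
    have h2 : c n = σ.choose (H σ B (dec g n)).1 (B (g (dec g n))) := if_neg hn'
    rw [h2, h, ← h1]
  · rw [Set.mem_iInter]
    intro n
    have := halive n
    rw [hH] at this; exact this
  · intro n
    have := (ht _ (halive n)).1
    rw [hH] at this; exact this
  · intro n hn
    have := (hg _ (ht _ (halive n)).2).2 (by rw [dec_length]; exact hn)
    have hn' : ¬ Even n := Nat.not_even_iff_odd.mpr hn
    rw [hH] at this
    simp only [P, if_neg hn']
    exact this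

/-- For every uncountable set `E`, player A has no winning strategy in the set-splitting game
`G(E)`.  Moreover every strategy of A is defeated by a run in which all current sets stay
uncountable and B always splits into two nonempty parts. -/
theorem result (E : Type u) [Uncountable E] :
    (¬ ∃ σ : StrategyA E, Winning σ) ∧
    ∀ σ : StrategyA E, ∃ (P : ℕ → Set E) (c : ℕ → Bool), Follows σ P c ∧
      (⋂ n, pos P c n).Nonempty ∧
      (∀ n, ¬ (pos P c n).Countable) ∧
      (∀ n, Odd n → (pos P c n ∩ P n).Nonempty ∧ (pos P c n \ P n).Nonempty) := by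
  refine ⟨?_, fun σ => exists_play σ⟩
  rintro ⟨σ, hσ⟩
  obtain ⟨P, c, hf, hne, -⟩ := exists_play σ
  rw [hσ P c hf] at hne
  exact Set.not_nonempty_empty hne

end Pool.Agent.Results.MP_053b7f_lc.NoWin
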